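import Pool.Agent.Lib.MP_c027d2_an.H35All

open Set Metric

namespace Pool.Agent.Results.MP_c027d2_an.GongPolydisc

/-- On the unit polydisc of `ℂⁿ` (maximum norm), for every degree `m ≥ 3` when `n ≥ 3`, and for
`m = 3` and every even `m ≥ 4` when `n = 2`, there is a normalized starlike biholomorphic map whose
homogeneous term of degree `m` has norm `> m` at a unit vector. -/
theorem result (n : ℕ) (hn : 2 ≤ n) (m : ℕ) (hm : 3 ≤ m) (h : 3 ≤ n ∨ m = 3 ∨ Even m) :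
    ∃ f : (Fin n → ℂ) → (Fin n → ℂ), DifferentiableOn ℂ f (ball 0 1) ∧ InjOn f (ball 0 1) ∧
      f 0 = 0 ∧ fderiv ℂ f 0 = ContinuousLinearMap.id ℂ (Fin n → ℂ) ∧
      StarConvex ℝ 0 (f '' ball 0 1) ∧ ∃ u : Fin n → ℂ, ‖u‖ = 1 ∧
        (m : ℝ) < ‖((m.factorial : ℂ)⁻¹) • iteratedFDeriv ℂ m f 0 (fun _ => u)‖ :=
  Lib.MP_c027d2_an.H35.fails hn hm h

end Pool.Agent.Results.MP_c027d2_an.GongPolydisc
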