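import Pool.Agent.Lib.MP_c027d2_an.H4Main

open Pool.Agent.Lib.MP_c027d2_an

namespace Pool.Agent.Results.MP_c027d2_an.LeadingOrders

/-- For every `A` with `m(A) > 0`, every `M > 1`, all `p ≤ m ≤ 2p - 2` and all vectors `z, w`, the
maximum of `|<P_m(z), w>|` over the maps of `R_{log M}(A)` generated by fields `Az + O(|z|^p)` is
an explicit integral.  For `p = m = 2` the family is all of `R_{log M}(A)`. -/
theorem result (n : ℕ) (A : Op n) (hA : ∀ z : CE n, z ≠ 0 → 0 < (ip (A z) z).re)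
    (M : ℝ) (hM : 1 < M) (p m : ℕ) (hpm : p ≤ m) (hmp : m + 2 ≤ 2 * p) (z w : CE n) :
    IsGreatest ((fun f => ‖ip (taylorTerm m f z) w‖) '' ReachOrd p A (Real.log M))
      (ordBound m A (Real.log M) z w) := by
  obtain ⟨q, rfl⟩ : ∃ q, p = q + 2 := ⟨p - 2, by omega⟩
  obtain ⟨j, rfl⟩ : ∃ j, m = j + 2 := ⟨m - 2, by omega⟩
  exact H4.isGreatest_ord q j (by omega) (by omega) hA (Real.log_nonneg hM.le) z w

end Pool.Agent.Results.MP_c027d2_an.LeadingOrders
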