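import Pool.Agent.Lib.MP_c027d2_an.H92Example

open Pool.Agent.Lib.MP_c027d2_an

theorem Pool.Agent.Results.MP_c027d2_an.LowerDistortion.result :
    ∀ (n : ℕ) (M : ℝ), 2 ≤ n → 1 < M → ∃ c C r₀ : ℝ, 0 < c ∧ 0 < C ∧ r₀ < 1 ∧
      ∀ r : ℝ, r₀ ≤ r → r < 1 →
        (∀ f ∈ Reach (idOp n) (Real.log M), ∀ z : CE n, ‖z‖ = r →
          Real.exp (-(C / (1 - r))) ≤ ‖fderiv ℂ f z‖ ∧
          Real.exp (-(C / (1 - r))) ≤ ‖ContinuousLinearMap.det (fderiv ℂ f z)‖) ∧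
        ∃ f ∈ Reach (idOp n) (Real.log M), ∃ z : CE n, ‖z‖ = r ∧
          ‖fderiv ℂ f z‖ ≤ Real.exp (-(c / (1 - r))) ∧
          ‖ContinuousLinearMap.det (fderiv ℂ f z)‖ ≤ Real.exp (-(c / (1 - r))) := by
  intro n M hn hM
  obtain ⟨C, hC, h1⟩ := H92.lower hn hM
  obtain ⟨c, r₀, hc, hr₀, h2⟩ := H92.upper hn hM
  refine ⟨c, C, r₀, hc, hC, hr₀, fun r hr r1 => ⟨fun f hf z hz => ?_, h2 r hr r1⟩⟩
  subst hz
  exact h1 f hf z r1
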