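import Pool.Agent.Lib.MP_c027d2_an.H86Third

open Pool.Agent.Lib.MP_c027d2_an

namespace Pool.Agent.Results.MP_c027d2_an.ThirdCoefficient

/-- For `n ≥ 2`, `A = I` and `M > 1` some map of the reachable family `R_{log M}(I)` has
`|<P_3(z), z>| = (3 √3 (1 + √2) / 4) (1 - 1 / M) ^ 2` at a unit vector `z`; this is more than `3`
for `M ≥ 46`. -/
theorem result (n : ℕ) (hn : 2 ≤ n) (M : ℝ) (hM : 1 < M) :
    ∃ f ∈ Reach (idOp n) (Real.log M), ∃ z : CE n, ‖z‖ = 1 ∧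
      ‖ip (taylorTerm 3 f z) z‖ = 3 * Real.sqrt 3 * (1 + Real.sqrt 2) / 4 * (1 - 1 / M) ^ 2 ∧
      (46 ≤ M → 3 < ‖ip (taylorTerm 3 f z) z‖) := by
  obtain ⟨f, hf, z, h1, h2⟩ := H86.main hn hM
  refine ⟨f, hf, z, h1, h2, fun h => ?_⟩
  have h3 : (1.732 : ℝ) ≤ Real.sqrt 3 := Real.le_sqrt_of_sq_le (by norm_num)
  have h4 : (1.4142 : ℝ) ≤ Real.sqrt 2 := Real.le_sqrt_of_sq_le (by norm_num)
  have h5 : 1 - 1 / 46 ≤ 1 - 1 / M := by gcongr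
  rw [h2]
  calc (3 : ℝ) < 3 * 1.732 * (1 + 1.4142) / 4 * (1 - 1 / 46) ^ 2 := by norm_num
    _ ≤ _ := by gcongr

end Pool.Agent.Results.MP_c027d2_an.ThirdCoefficient
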